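import Mathlib
import Pool.Agent.H964.CW.Stm3

/-! # One step of the backward induction (task CW-STP, helper860) -/

set_option autoImplicit false

open MeasureTheory ProbabilityTheory Filter Finset

namespace Pool.Agent.H860.CW

open Pool.Agent.H964.QC Pool.Agent.H964.CW

/-- layers renumbered: the layer `n + 1` is the given layer `n` -/
def ush {V : Type} (y : ℕ → V → ℝ) : ℕ → V → ℝ
  | 0, _ => 0
  | n + 1, v => y n v

theorem ush_sft {V : Type} (j : ℕ) (x : ℕ → V → ℝ) (n : ℕ) (hn : 1 ≤ n) :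
    sft j x n = ush (sft (j + 1) x) n := by
  obtain ⟨m, rfl⟩ : ∃ m, n = m + 1 := ⟨n - 1, by omega⟩
  funext v
  show x (j + (m + 1)) v = x (j + 1 + m) v
  congr 1
  omega

theorem meas_ush {V : Type} : Measurable (ush : (ℕ → V → ℝ) → (ℕ → V → ℝ)) := by
  refine measurable_pi_lambda _ fun n => ?_
  cases n with
  | zero =>
    have e : (fun c : ℕ → V → ℝ => ush c 0) = fun _ => fun _ => (0 : ℝ) := rfl
    rw [e]
    exact measurable_const
  | succ n => exact measurable_pi_apply n

theorem meas_sft {V : Type} (j : ℕ) : Measurable (sft j : (ℕ → V → ℝ) → (ℕ → V → ℝ)) := by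
  refine measurable_pi_lambda _ fun n => measurable_pi_lambda _ fun v => ?_
  exact (measurable_pi_apply v).comp (measurable_pi_apply (j + n))

theorem cut_sft {V : Type} (j T : ℕ) (x : ℕ → V → ℝ) :
    cut T (sft j (cut (j + T) x)) = cut T (sft j x) := by
  funext n v
  unfold cut sft
  by_cases h : n ≤ T
  · rw [if_pos h, if_pos h]
    exact if_pos (by omega)
  · rw [if_neg h, if_neg h]

theorem cut_cut {V : Type} (j T : ℕ) (x : ℕ → V → ℝ) : cut j (cut (j + T) x) = cut j x := by
  funext n v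
  unfold cut
  by_cases h : n ≤ j
  · rw [if_pos h, if_pos h, if_pos (by omega)]
  · rw [if_neg h, if_neg h]

section

variable {V : Type} [Fintype V] [DecidableEq V] {C0 : ℝ} {N0 : ℕ} (W : Wlk V C0 N0)

theorem Zr_congr {x x' : ℕ → V → ℝ} (T : ℕ) (h : ∀ n, 1 ≤ n → x n = x' n) :
    Zr W x T = Zr W x' T := by
  induction T with
  | zero => rfl
  | succ T ih =>
    funext y
    show ∑ z, W.K 1 y z * ((1 + x (T + 1) z) * Zr W x T z) =
      ∑ z, W.K 1 y z * ((1 + x' (T + 1) z) * Zr W x' T z)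
    rw [ih, h (T + 1) (by omega)]

theorem lgX_congr {x x' : ℕ → V → ℝ} (T : ℕ) (w : V → ℝ) (h : Zr W x T = Zr W x' T) :
    lgX W T w x = lgX W T w x' := by
  unfold lgX XX
  rw [h]

theorem meas_wt (m : ℕ) (z : V) : Measurable fun w : V → ℝ => wt W w m z := by
  unfold wt
  exact Finset.measurable_sum _ fun x _ => (measurable_pi_apply x).mul_const _

theorem meas_fwd (T : ℕ) : ∀ z, Measurable fun p : (V → ℝ) × (ℕ → V → ℝ) => fwd W p.2 T p.1 z := by
  induction T with
  | zero => exact fun z => (measurable_pi_apply z).comp measurable_fst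
  | succ T ih =>
    intro z
    have h2 : Measurable fun p : (V → ℝ) × (ℕ → V → ℝ) =>
        ((fun z => (1 + p.2 (T + 1) z) * wt W p.1 1 z : V → ℝ), p.2) := by
      refine Measurable.prodMk (measurable_pi_lambda _ fun z => ?_) measurable_snd
      refine Measurable.mul ?_ ((meas_wt W 1 z).comp measurable_fst)
      have h3 : Measurable fun p : (V → ℝ) × (ℕ → V → ℝ) => p.2 (T + 1) :=
        (measurable_pi_apply (T + 1)).comp measurable_snd
      have h4 : Measurable fun p : (V → ℝ) × (ℕ → V → ℝ) => p.2 (T + 1) z :=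
        (measurable_pi_apply z).comp h3
      exact h4.const_add 1
    exact (ih z).comp h2

theorem meas_nw (T : ℕ) : Measurable fun p : (V → ℝ) × (ℕ → V → ℝ) => nw W T p.1 p.2 := by
  refine measurable_pi_lambda _ fun z => ?_
  unfold nw
  exact (meas_fwd W T z).div (Finset.measurable_sum _ fun y _ => meas_fwd W T y)

theorem meas_lgX (hZ : ∀ j y, Measurable fun x : ℕ → V → ℝ => Zr W x j y) (T : ℕ) :
    Measurable fun p : (V → ℝ) × (ℕ → V → ℝ) => lgX W T p.1 p.2 := by
  unfold lgX XX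
  refine Real.measurable_log.comp ((Finset.measurable_sum _ fun z _ => ?_).const_add 1)
  exact ((meas_wt W _ z).comp measurable_fst).mul (((hZ T z).comp measurable_snd).sub_const 1)

theorem meas_lgZ (hZ : ∀ j y, Measurable fun x : ℕ → V → ℝ => Zr W x j y) (j : ℕ) :
    Measurable fun p : (V → ℝ) × (ℕ → V → ℝ) => lgZ W j p.1 p.2 := by
  unfold lgZ
  refine Real.measurable_log.comp (Finset.measurable_sum _ fun y _ => ?_)
  exact ((measurable_pi_apply y).comp measurable_fst).mul ((hZ j y).comp measurable_snd)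

end

section prob

variable {Ω : Type} [MeasurableSpace Ω] {P : Measure Ω} [IsProbabilityMeasure P]

omit [IsProbabilityMeasure P] in
theorem sq_add {X Y : Ω → ℝ} (hX : MemLp X 2 P) (hY : MemLp Y 2 P)
    (h : ∫ ω, X ω * Y ω ∂P = 0) :
    ∫ ω, (X ω + Y ω) ^ 2 ∂P = ∫ ω, X ω ^ 2 ∂P + ∫ ω, Y ω ^ 2 ∂P := by
  have hXYI : Integrable (fun ω => X ω * Y ω) P := hX.integrable_mul hY
  have i1 : Integrable (fun ω => X ω ^ 2) P := hX.integrable_sq
  have i2 : Integrable (fun ω => Y ω ^ 2) P := hY.integrable_sq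
  have i3 : Integrable (fun ω => 2 * (X ω * Y ω)) P := hXYI.const_mul 2
  have h1 : (fun ω => (X ω + Y ω) ^ 2) =
      fun ω => (X ω ^ 2 + Y ω ^ 2) + 2 * (X ω * Y ω) := by
    funext ω
    ring
  have i12 : Integrable (fun ω => X ω ^ 2 + Y ω ^ 2) P := i1.add i2
  rw [h1, integral_add i12 i3, integral_add i1 i2, integral_const_mul, h]
  ring

theorem err {f U V : Ω → ℝ} {c ε Φ β : ℝ} (hf : ∀ ω, f ω = c + (U ω + V ω)) (hU : MemLp U 2 P)
    (hV : MemLp V 2 P) (hU2 : ∫ ω, U ω ^ 2 ∂P ≤ Φ) (hV2 : ∫ ω, V ω ^ 2 ∂P ≤ β)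
    (hUV : ∀ ω, U ω * V ω = 0) (hc : |c| ≤ ε) :
    MemLp f 2 P ∧ ∫ ω, f ω ^ 2 ∂P ≤ (1 + ε) * (Φ + β) + ε + ε ^ 2 := by
  have hε : 0 ≤ ε := (abs_nonneg _).trans hc
  have hSL : MemLp (fun ω => U ω + V ω) 2 P := hU.add hV
  have hS2 : ∫ ω, (U ω + V ω) ^ 2 ∂P ≤ Φ + β := by
    rw [sq_add hU hV (by simp only [hUV, integral_zero])]
    linarith
  have hff : f = fun ω => c + (U ω + V ω) := funext hf
  refine ⟨?_, ?_⟩
  · rw [hff]
    exact (memLp_const c).add hSL
  · have hI1 : Integrable (fun ω => (1 + ε) * (U ω + V ω) ^ 2) P :=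
      hSL.integrable_sq.const_mul _
    have hI : Integrable (fun ω => (ε ^ 2 + ε) + (1 + ε) * (U ω + V ω) ^ 2) P :=
      (integrable_const _).add hI1
    calc ∫ ω, f ω ^ 2 ∂P ≤ ∫ ω, ((ε ^ 2 + ε) + (1 + ε) * (U ω + V ω) ^ 2) ∂P := by
          refine integral_mono_of_nonneg (ae_of_all _ fun ω => sq_nonneg _) hI
            (ae_of_all _ fun ω => ?_)
          show f ω ^ 2 ≤ (ε ^ 2 + ε) + (1 + ε) * (U ω + V ω) ^ 2
          rw [hf]
          generalize U ω + V ω = z
          obtain ⟨hc1, hc2⟩ := abs_le.1 hc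
          have hcc : c ^ 2 ≤ ε ^ 2 := by nlinarith
          have hz : 2 * c * z ≤ ε * (1 + z ^ 2) := by
            have e1 : 2 * z ≤ 1 + z ^ 2 := by nlinarith [sq_nonneg (z - 1)]
            have e2 : -(2 * z) ≤ 1 + z ^ 2 := by nlinarith [sq_nonneg (z + 1)]
            rcases le_total 0 z with h0 | h0
            · nlinarith
            · nlinarith
          nlinarith
      _ = (ε ^ 2 + ε) + (1 + ε) * ∫ ω, (U ω + V ω) ^ 2 ∂P := by
          rw [integral_add (integrable_const _) hI1, integral_const_mul, integral_const,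
            probReal_univ, one_smul]
      _ ≤ (1 + ε) * (Φ + β) + ε + ε ^ 2 := by
          have := mul_le_mul_of_nonneg_left hS2 (by linarith : (0 : ℝ) ≤ 1 + ε)
          linarith

end prob

theorem t_STP : S_MK → S_MEAS → S_IND → S_FRZ → S_DUAL → S_STP := by
  intro hMK hMEAS _ _ _ V _ _ C0 N0 W Ω _ P _ s2 κ η j T G G' D' a a' hN hG hG' hGw hD' hD'c
  obtain ⟨-, -, hcut, hmZ, -, hfc, hmC, -⟩ := hMEAS V C0 N0 W Ω P s2 κ η hN
  -- measurability of the ingredients
  have hs : Measurable fun p : (V → ℝ) × (ℕ → V → ℝ) => (p.1, sft j p.2) :=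
    measurable_fst.prodMk ((meas_sft j).comp measurable_snd)
  have hlX : Measurable fun p : (V → ℝ) × (ℕ → V → ℝ) => lgX W T p.1 (sft j p.2) :=
    (meas_lgX W hmZ T).comp hs
  have hnw : Measurable fun p : (V → ℝ) × (ℕ → V → ℝ) => nw W T p.1 (sft j p.2) :=
    (meas_nw W T).comp hs
  obtain ⟨mm, hmm⟩ : ∃ mm : (V → ℝ) → ℝ, ∀ w, mm w = ∫ ω, lgX W T w (sft j (cfg η ω)) ∂P :=
    ⟨_, fun _ => rfl⟩
  have hmmM : Measurable mm := by
    have hq : Measurable fun q : (V → ℝ) × Ω => (q.1, cfg η q.2) :=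
      measurable_fst.prodMk (hmC.comp measurable_snd)
    have h0 := hlX.comp hq
    have h1 : Measurable fun q : (V → ℝ) × Ω => lgX W T q.1 (sft j (cfg η q.2)) := h0
    have h2 := (h1.stronglyMeasurable.integral_prod_right' (ν := P)).measurable
    have h3 : mm = fun w => ∫ ω, lgX W T w (sft j (cfg η ω)) ∂P := funext hmm
    rw [h3]
    exact h2
  obtain ⟨D, hD⟩ : ∃ D : (V → ℝ) → (ℕ → V → ℝ) → ℝ, ∀ w x, D w x =
      G.indicator (fun w => lgX W T w (sft j x) - mm w +
        G'.indicator (fun w' => D' w' x) (nw W T w (sft j x))) w := ⟨_, fun _ _ => rfl⟩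
  refine ⟨D, ?_, ?_, ?_⟩
  · -- joint measurability
    have h1 : Measurable fun p : (V → ℝ) × (ℕ → V → ℝ) =>
        G'.indicator (fun w' => D' w' p.2) (nw W T p.1 (sft j p.2)) := by
      have h2 : (fun p : (V → ℝ) × (ℕ → V → ℝ) =>
          G'.indicator (fun w' => D' w' p.2) (nw W T p.1 (sft j p.2))) =
          ((fun p : (V → ℝ) × (ℕ → V → ℝ) => nw W T p.1 (sft j p.2)) ⁻¹' G').indicator
            (fun p => D' (nw W T p.1 (sft j p.2)) p.2) := by
        funext p
        rfl
      rw [h2]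
      exact (hD'.comp (hnw.prodMk measurable_snd)).indicator (hnw hG')
    have h3 : (fun p : (V → ℝ) × (ℕ → V → ℝ) => D p.1 p.2) =
        (Prod.fst ⁻¹' G).indicator (fun p : (V → ℝ) × (ℕ → V → ℝ) =>
          lgX W T p.1 (sft j p.2) - mm p.1 +
            G'.indicator (fun w' => D' w' p.2) (nw W T p.1 (sft j p.2))) := by
      funext p
      rw [hD]
      rfl
    rw [h3]
    exact ((hlX.sub (hmmM.comp measurable_fst)).add h1).indicator (measurable_fst hG)
  · -- dependence on the layers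
    intro w x
    rw [hD, hD]
    have h1 : ∀ w, lgX W T w (sft j (cut (j + T) x)) = lgX W T w (sft j x) := by
      intro w
      apply lgX_congr
      rw [hcut (sft j (cut (j + T) x)) T, cut_sft, ← hcut]
    have h2 : ∀ w, nw W T w (sft j (cut (j + T) x)) = nw W T w (sft j x) := by
      intro w
      unfold nw
      rw [hfc (sft j (cut (j + T) x)) T w, cut_sft, ← hfc]
    have h3 : ∀ w', D' w' (cut (j + T) x) = D' w' x := by
      intro w'
      rw [hD'c w' (cut (j + T) x), cut_cut, ← hD'c]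
    simp only [h1, h2, h3]
  · intro w hw v lo up Φ β ε m vr hv hup hΦ hloc hβ hm hmε hvr
    obtain ⟨hw0, hw1⟩ := hGw w hw
    obtain ⟨hfact, hmk⟩ := hMK V C0 N0 W Ω P s2 κ η w j T hN hw0 hw1
    have hmw : mm w = m := by rw [hmm, hm]
    have hgt : ∀ ω n v, -1 < cfg η ω n v := fun ω n v => hN.gt n v ω
    set nn : Ω → V → ℝ := fun ω => nw W T w (sft j (cfg η ω)) with hnn
    -- the two parts of `D`
    obtain ⟨X, hX⟩ : ∃ X : Ω → ℝ, ∀ ω, X ω = lgX W T w (sft j (cfg η ω)) - m := ⟨_, fun _ => rfl⟩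
    obtain ⟨Y, hY⟩ : ∃ Y : Ω → ℝ, ∀ ω, Y ω = G'.indicator (fun w' => D' w' (cfg η ω)) (nn ω) :=
      ⟨_, fun _ => rfl⟩
    have hDXY : ∀ ω, D w (cfg η ω) = X ω + Y ω := by
      intro ω
      rw [hD, Set.indicator_of_mem hw, hX, hY, hmw]
    have hXL : MemLp X 2 P := by
      have : X = fun ω => lgX W T w (sft j (cfg η ω)) - m := funext hX
      rw [this]
      exact hv.1.sub (memLp_const m)
    have hYsq := hmk G' D' up lo hG' hD' hD'c hup (fun w' h1 h2 h3 _ => (hloc w' h1 h2 h3).1)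
    obtain ⟨⟨hYL, hY2⟩, hYlo, hYort⟩ := hYsq
    have hYfun : Y = fun ω => G'.indicator (fun w' => D' w' (cfg η ω))
        (nw W T w (sft j (cfg η ω))) := funext hY
    have hYL' : MemLp Y 2 P := by rw [hYfun]; exact hYL
    have hYlo' := hYlo fun w' h1 h2 h3 => (hloc w' h1 h2 h3).2.2.1
    have hYort' := hYort fun w' h1 h2 h3 => (hloc w' h1 h2 h3).2.1
    have hp1 : P.real {ω | nw W T w (sft j (cfg η ω)) ∈ G'} ≤ 1 := measureReal_le_one
    have hp0 : 0 ≤ P.real {ω | nw W T w (sft j (cfg η ω)) ∈ G'} := measureReal_nonneg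
    have hY2' : ∫ ω, Y ω ^ 2 ∂P ≤ up := by
      rw [hYfun]
      refine hY2.trans ?_
      calc up * P.real {ω | nw W T w (sft j (cfg η ω)) ∈ G'} ≤ up * 1 :=
            mul_le_mul_of_nonneg_left hp1 hup
        _ = up := mul_one up
    have hYlo2 : lo * P.real {ω | nw W T w (sft j (cfg η ω)) ∈ G'} ≤ ∫ ω, Y ω ^ 2 ∂P := by
      rw [hYfun]
      exact hYlo'
    have hY0 : ∫ ω, Y ω ∂P = 0 := by
      have h1 := hYort' (fun _ => 1) measurable_const (memLp_const 1)
      simp only [one_mul] at h1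
      rw [hYfun]
      exact h1
    have hlgX : ∀ ω, lgX W T w (sft j (cfg η ω)) = lgX W T w (ush (sft (j + 1) (cfg η ω))) := by
      intro ω
      apply lgX_congr
      exact Zr_congr W T fun n hn => ush_sft j _ n hn
    have hXY : ∫ ω, X ω * Y ω ∂P = 0 := by
      have hg : Measurable fun y : ℕ → V → ℝ => lgX W T w (ush y) - m := by
        have e0 : Measurable fun y : ℕ → V → ℝ => (w, ush y) := measurable_const.prodMk meas_ush
        have e1 := (meas_lgX W hmZ T).comp e0
        have e2 : Measurable fun y : ℕ → V → ℝ => lgX W T w (ush y) := e1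
        exact e2.sub_const m
      have hfun : X = fun ω => (fun y : ℕ → V → ℝ => lgX W T w (ush y) - m)
          (sft (j + 1) (cfg η ω)) := by
        funext ω
        rw [hX, hlgX]
      have h1 := hYort' _ hg (by rw [← hfun]; exact hXL)
      rw [hfun, hYfun]
      exact h1
    have hlgI : Integrable (fun ω => lgX W T w (sft j (cfg η ω))) P := hv.1.integrable (by norm_num)
    have hX0 : ∫ ω, X ω ∂P = 0 := by
      have : X = fun ω => lgX W T w (sft j (cfg η ω)) - m := funext hX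
      rw [this, integral_sub hlgI (integrable_const m), ← hm, integral_const, probReal_univ,
        one_smul, sub_self]
    have hX2 : ∫ ω, X ω ^ 2 ∂P = vr := by
      rw [hvr]
      exact integral_congr_ae (ae_of_all _ fun ω => by simp only [hX])
    have hDL : MemLp (fun ω => D w (cfg η ω)) 2 P := by
      have : (fun ω => D w (cfg η ω)) = X + Y := by
        funext ω
        rw [hDXY, Pi.add_apply]
      rw [this]
      exact hXL.add hYL'
    have hD2 : ∫ ω, (D w (cfg η ω)) ^ 2 ∂P = vr + ∫ ω, Y ω ^ 2 ∂P := by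
      have h1 : (fun ω => (D w (cfg η ω)) ^ 2) = fun ω => (X ω + Y ω) ^ 2 := by
        funext ω
        rw [hDXY]
      rw [h1, sq_add hXL hYL' hXY, hX2]
    have hYn : 0 ≤ ∫ ω, Y ω ^ 2 ∂P := integral_nonneg fun ω => sq_nonneg _
    refine ⟨hDL, ?_, ?_, ?_, ?_, ?_⟩
    · have h1 : (fun ω => D w (cfg η ω)) = fun ω => X ω + Y ω := funext hDXY
      rw [h1, integral_add (hXL.integrable (by norm_num)) (hYL'.integrable (by norm_num)), hX0, hY0,
        add_zero]
    · rw [hD2]
      linarith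
    · intro _
      rw [hD2]
      linarith
    · rw [hD2]
      linarith
    · -- the error
      have hF : Measurable fun p : (V → ℝ) × (ℕ → V → ℝ) =>
          (fun w' x => lgZ W j w' x + a' - D' w' x) p.1 p.2 :=
        ((meas_lgZ W hmZ j).add_const a').sub hD'
      have hFc : ∀ (w' : V → ℝ) (x : ℕ → V → ℝ),
          (fun w' x => lgZ W j w' x + a' - D' w' x) w' x =
            (fun w' x => lgZ W j w' x + a' - D' w' x) w' (cut j x) := by
        intro w' x
        dsimp only
        unfold lgZ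
        rw [hcut x j, ← hD'c w' x]
      have hUU := (hmk G' (fun w' x => lgZ W j w' x + a' - D' w' x) Φ 0 hG' hF hFc hΦ
        (fun w' h1 h2 h3 _ => (hloc w' h1 h2 h3).2.2.2)).1
      obtain ⟨U, hU⟩ : ∃ U : Ω → ℝ, ∀ ω, U ω =
          G'.indicator (fun w' => lgZ W j w' (cfg η ω) + a' - D' w' (cfg η ω)) (nn ω) :=
        ⟨_, fun _ => rfl⟩
      obtain ⟨V', hV'⟩ : ∃ V' : Ω → ℝ, ∀ ω, V' ω =
          G'ᶜ.indicator (fun w' => lgZ W j w' (cfg η ω) + a') (nn ω) := ⟨_, fun _ => rfl⟩
      have hUf : U = fun ω => G'.indicator (fun w' => lgZ W j w' (cfg η ω) + a' - D' w' (cfg η ω))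
          (nw W T w (sft j (cfg η ω))) := funext hU
      have hVf : V' = fun ω => G'ᶜ.indicator (fun w' => lgZ W j w' (cfg η ω) + a')
          (nw W T w (sft j (cfg η ω))) := funext hV'
      have hUL : MemLp U 2 P := by rw [hUf]; exact hUU.1
      have hVL : MemLp V' 2 P := by rw [hVf]; exact hβ.1
      have hU2 : ∫ ω, U ω ^ 2 ∂P ≤ Φ := by
        rw [hUf]
        refine hUU.2.trans ?_
        calc Φ * P.real {ω | nw W T w (sft j (cfg η ω)) ∈ G'} ≤ Φ * 1 :=
              mul_le_mul_of_nonneg_left hp1 hΦ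
          _ = Φ := mul_one Φ
      have hV2 : ∫ ω, V' ω ^ 2 ∂P ≤ β := by rw [hVf]; exact hβ.2
      have herr : ∀ ω, lgZ W (j + T) w (cfg η ω) + a - D w (cfg η ω) =
          (m + a - a') + (U ω + V' ω) := by
        intro ω
        have h4 := (hfact (cfg η ω) (hgt ω)).2.2.2
        rw [hDXY, h4, hX, hY, hU, hV']
        by_cases hmem : nn ω ∈ G'
        · rw [Set.indicator_of_mem hmem, Set.indicator_of_mem hmem,
            Set.indicator_of_notMem (s := G'ᶜ) (fun h => h hmem)]
          rw [hnn]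
          ring
        · rw [Set.indicator_of_notMem hmem, Set.indicator_of_notMem hmem,
            Set.indicator_of_mem (show nn ω ∈ G'ᶜ from hmem)]
          rw [hnn]
          ring
      have hUV : ∀ ω, U ω * V' ω = 0 := by
        intro ω
        rw [hU, hV']
        by_cases hmem : nn ω ∈ G'
        · rw [Set.indicator_of_notMem (s := G'ᶜ) (fun h => h hmem), mul_zero]
        · rw [Set.indicator_of_notMem hmem, zero_mul]
      exact err herr hUL hVL hU2 hV2 hUV hmε

end Pool.Agent.H860.CW
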